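import Pool.Agent.Y360.RR.Stm

set_option autoImplicit false

/-!
Project Y360-RR (owner helper360), task DIV: the final contradiction.
-/

open Filter Topology Finset

namespace Pool.Agent.Y624.RR

open Pool.Agent.Y360.RR

theorem norm_e (t : ℝ) : ‖e t‖ = 1 := by
  rw [e, Complex.norm_exp_ofReal_mul_I]

theorem e_pow (t : ℝ) (n : ℕ) : e t ^ n = e (t * n) := by
  rw [e, e, ← Complex.exp_nat_mul]
  congr 1
  push_cast
  ring

theorem e_ne_one (t : ℝ) (ht : Irrational t) (n : ℕ) (hn : 0 < n) : e t ^ n ≠ 1 := by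
  rw [e_pow, e]
  intro h
  rw [Complex.exp_eq_one_iff] at h
  obtain ⟨k, hk⟩ := h
  have h2 : (2 * Real.pi * (t * n)) = k * (2 * Real.pi) := by
    have := congrArg Complex.im hk
    simpa using this
  have h3 : t * n = k := by
    have hp := Real.pi_pos
    have : (2 * Real.pi) * (t * n - k) = 0 := by linarith
    rcases mul_eq_zero.1 this with h | h
    · linarith
    · linarith
  have hn' : (n : ℝ) ≠ 0 := Nat.cast_ne_zero.2 hn.ne'
  have h4 : t = ((k / n : ℚ) : ℝ) := by
    push_cast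
    rw [eq_div_iff hn']
    exact h3
  exact ht ⟨_, h4.symm⟩

theorem conj_e (t : ℝ) : (starRingEnd ℂ) (e t) = (e t)⁻¹ := by
  rw [Complex.inv_def, Complex.normSq_eq_norm_sq, norm_e]
  simp

theorem V_nonneg (x : ℂ) (n : ℕ) : 0 ≤ V x n := by
  unfold V
  positivity

/-- Lagrange's identity -/
theorem lagrange (x : ℂ) (m n : ℕ) :
    V x m * V x n = ‖a x m * (starRingEnd ℂ) (a x n) + b x m * (starRingEnd ℂ) (b x n)‖ ^ 2 +
      ‖Del x m n‖ ^ 2 := by
  unfold V Del
  simp only [← Complex.normSq_eq_norm_sq, Complex.normSq_apply]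
  simp only [Complex.add_re, Complex.add_im, Complex.mul_re, Complex.mul_im, Complex.sub_re,
    Complex.sub_im, Complex.conj_re, Complex.conj_im]
  ring

theorem del_le (x : ℂ) (m n : ℕ) : ‖Del x m n‖ ^ 2 ≤ V x m * V x n := by
  rw [lagrange]
  have : 0 ≤ ‖a x m * (starRingEnd ℂ) (a x n) + b x m * (starRingEnd ℂ) (b x n)‖ ^ 2 := by
    positivity
  linarith

theorem V_split (hG : S_GRAM) (t : ℝ) (ht : Irrational t) (m n : ℕ) :
    V (e t) m * V (e t) n = ‖Q (e t) (m + n) ((e t)⁻¹ ^ n)‖ ^ 2 + ‖Del (e t) m n‖ ^ 2 := by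
  rw [lagrange, hG (e t) (norm_e t) (e_ne_one t ht) m n]

theorem two_le (hD : S_DET) (t : ℝ) (n : ℕ) : 2 ≤ V (e t) n + V (e t) (n + 1) := by
  have h1 : ‖Del (e t) n (n + 1)‖ = 1 := by
    have := hD (e t) (norm_e t) n 0
    rw [add_zero] at this
    rw [this]
    simp [Q, c]
  have h2 := del_le (e t) n (n + 1)
  rw [h1] at h2
  have h3 := V_nonneg (e t) n
  have h4 := V_nonneg (e t) (n + 1)
  nlinarith [sq_nonneg (V (e t) n - V (e t) (n + 1))]

/-- the weights -/
noncomputable def w (s : ℝ) (n : ℕ) : ℝ := Real.exp (-(s * n))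

theorem w_pos (s : ℝ) (n : ℕ) : 0 < w s n := Real.exp_pos _

theorem w_add (s : ℝ) (m n : ℕ) : w s (m + n) = w s m * w s n := by
  unfold w
  rw [← Real.exp_add]
  congr 1
  push_cast
  ring

theorem w_le_one {s : ℝ} (hs : 0 ≤ s) (n : ℕ) : w s n ≤ 1 := by
  unfold w
  apply Real.exp_le_one_iff.2
  have : 0 ≤ s * n := by positivity
  linarith

/-- the generating function -/
noncomputable def T (t s : ℝ) : ℝ := ∑' n : ℕ, V (e t) n * w s n

theorem summ (hT : S_TRACE) (t : ℝ) (ht : Irrational t) (s : ℝ) (hs : 0 < s) :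
    Summable (fun n : ℕ => V (e t) n * w s n) := (hT t ht s hs).1

theorem sum_le_T (hT : S_TRACE) (t : ℝ) (ht : Irrational t) (s : ℝ) (hs : 0 < s) (M : ℕ) :
    ∑ n ∈ range M, V (e t) n * w s n ≤ T t s := by
  refine (summ hT t ht s hs).sum_le_tsum _ fun n _ => ?_
  exact mul_nonneg (V_nonneg _ _) (w_pos _ _).le

theorem T_large (hD : S_DET) (hT : S_TRACE) (t : ℝ) (ht : Irrational t) (B : ℝ) :
    ∃ ε : ℝ, 0 < ε ∧ ∀ s : ℝ, 0 < s → s < ε → B < T t s := by
  obtain ⟨M, hM⟩ := exists_nat_gt (2 * B)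
  refine ⟨1 / (2 * M + 1), by positivity, fun s hs hsε => ?_⟩
  have h1 : ∀ K : ℕ, (2 * K : ℝ) ≤ ∑ n ∈ range (2 * K), V (e t) n := by
    intro K
    induction K with
    | zero => simp
    | succ K ih =>
      rw [(by ring : 2 * (K + 1) = 2 * K + 1 + 1), sum_range_succ, sum_range_succ]
      have := two_le hD t (2 * K)
      push_cast
      linarith
  have h2 : Real.exp (-1) * ∑ n ∈ range (2 * M), V (e t) n ≤ T t s := by
    refine le_trans ?_ (sum_le_T hT t ht s hs (2 * M))
    rw [mul_sum]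
    refine sum_le_sum fun n hn => ?_
    rw [mul_comm]
    refine mul_le_mul_of_nonneg_left ?_ (V_nonneg _ _)
    unfold w
    apply Real.exp_le_exp.2
    have hn' : (n : ℝ) ≤ 2 * M := by
      have := (mem_range.1 hn).le
      exact_mod_cast this
    have h3 : s * (2 * M + 1) < 1 := by
      rw [lt_div_iff₀ (by positivity)] at hsε
      exact hsε
    nlinarith
  have h3 : (1 : ℝ) / 3 < Real.exp (-1) := by
    rw [Real.exp_neg, one_div]
    exact inv_strictAnti₀ (Real.exp_pos 1) (by linarith [Real.exp_one_lt_three])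
  have h4 := h1 M
  have h5 : (0 : ℝ) ≤ ∑ n ∈ range (2 * M), V (e t) n := sum_nonneg fun n _ => V_nonneg _ _
  rcases le_or_gt B 0 with hB | hB
  · rcases Nat.eq_zero_or_pos M with rfl | hM0
    · -- T is positive
      have h6 := two_le hD t 0
      have h7 := sum_le_T hT t ht s hs 2
      rw [sum_range_succ, sum_range_succ, sum_range_zero, zero_add] at h7
      have h8 := V_nonneg (e t) 0
      have h9 := V_nonneg (e t) 1
      have h10 : 0 < V (e t) 0 * w s 0 + V (e t) 1 * w s 1 := by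
        rcases h8.eq_or_lt with h | h
        · have : 0 < V (e t) 1 := by
            rw [← h] at h6
            simp only [zero_add] at h6
            linarith
          have h11 := mul_pos this (w_pos s 1)
          have h12 := mul_nonneg h8 (w_pos s 0).le
          linarith
        · have h11 := mul_pos h (w_pos s 0)
          have h12 := mul_nonneg h9 (w_pos s 1).le
          linarith
      linarith
    · have : (1 : ℝ) ≤ M := by exact_mod_cast hM0
      nlinarith
  · nlinarith

/-- the sum over all pairs is small -/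
theorem pairs_le (hT : S_TRACE) (t : ℝ) (ht : Irrational t) {η : ℝ} (hη : 0 ≤ η) {n₀ : ℕ}
    (h0 : ∀ m n : ℕ, n₀ ≤ m → n₀ ≤ n →
      ‖Del (e t) m n‖ ^ 2 ≤ η * (V (e t) m * V (e t) n)) (s : ℝ) (hs : 0 < s) (M : ℕ) :
    ∑ m ∈ range M, ∑ n ∈ range M, w s m * w s n * ‖Del (e t) m n‖ ^ 2 ≤
      η * T t s ^ 2 + 2 * (∑ n ∈ range n₀, V (e t) n) * T t s := by
  set g : ℕ → ℝ := fun n => V (e t) n * w s n with hg
  have hg0 : ∀ n, 0 ≤ g n := fun n => mul_nonneg (V_nonneg _ _) (w_pos _ _).le
  set C := ∑ n ∈ range n₀, V (e t) n with hC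
  have hC0 : 0 ≤ C := sum_nonneg fun n _ => V_nonneg _ _
  have hM0 : ∑ n ∈ range M, g n ≤ T t s := sum_le_T hT t ht s hs M
  have hS0 : 0 ≤ ∑ n ∈ range M, g n := sum_nonneg fun n _ => hg0 n
  have hlow : ∑ m ∈ range M, (if m < n₀ then g m else 0) ≤ C := by
    rw [← sum_filter]
    refine (sum_le_sum_of_subset_of_nonneg (t := range n₀) ?_ fun n _ _ => hg0 n).trans ?_
    · intro m hm
      exact mem_range.2 (mem_filter.1 hm).2
    · refine sum_le_sum fun n _ => ?_
      exact mul_le_of_le_one_right (V_nonneg _ _) (w_le_one hs.le _)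
  have key : ∀ m n : ℕ, w s m * w s n * ‖Del (e t) m n‖ ^ 2 ≤
      η * (g m * g n) + (if m < n₀ then g m else 0) * g n +
        g m * (if n < n₀ then g n else 0) := by
    intro m n
    have hw : 0 ≤ w s m * w s n := mul_nonneg (w_pos _ _).le (w_pos _ _).le
    have e1 : g m * g n = w s m * w s n * (V (e t) m * V (e t) n) := by
      simp only [hg]
      ring
    have hle : w s m * w s n * ‖Del (e t) m n‖ ^ 2 ≤ g m * g n := by
      rw [e1]
      exact mul_le_mul_of_nonneg_left (del_le _ _ _) hw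
    have hp : 0 ≤ η * (g m * g n) := mul_nonneg hη (mul_nonneg (hg0 m) (hg0 n))
    have hgg : 0 ≤ g m * g n := mul_nonneg (hg0 m) (hg0 n)
    by_cases h1 : m < n₀
    · rw [if_pos h1]
      have : 0 ≤ g m * (if n < n₀ then g n else 0) := by
        refine mul_nonneg (hg0 m) ?_
        split_ifs
        · exact hg0 n
        · exact le_rfl
      linarith
    · by_cases h2 : n < n₀
      · rw [if_neg h1, if_pos h2]
        linarith
      · rw [if_neg h1, if_neg h2]
        have h3 := h0 m n (not_lt.1 h1) (not_lt.1 h2)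
        have h4 := mul_le_mul_of_nonneg_left h3 hw
        rw [e1]
        linarith
  calc ∑ m ∈ range M, ∑ n ∈ range M, w s m * w s n * ‖Del (e t) m n‖ ^ 2
      ≤ ∑ m ∈ range M, ∑ n ∈ range M, (η * (g m * g n) + (if m < n₀ then g m else 0) * g n +
        g m * (if n < n₀ then g n else 0)) :=
        sum_le_sum fun m _ => sum_le_sum fun n _ => key m n
    _ = η * (∑ n ∈ range M, g n) ^ 2 +
        2 * ((∑ m ∈ range M, (if m < n₀ then g m else 0)) * ∑ n ∈ range M, g n) := by
        simp only [sum_add_distrib]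
        simp only [← mul_sum, ← sum_mul]
        ring
    _ ≤ η * T t s ^ 2 + 2 * (C * T t s) := by
        have h1 : (∑ n ∈ range M, g n) ^ 2 ≤ T t s ^ 2 := pow_le_pow_left₀ hS0 hM0 2
        have h2 : (∑ m ∈ range M, (if m < n₀ then g m else 0)) * ∑ n ∈ range M, g n ≤
            C * T t s := mul_le_mul hlow hM0 hS0 hC0
        have h3 := mul_le_mul_of_nonneg_left h1 hη
        linarith
    _ = _ := by ring

/-- a shifted sum is at most a longer sum -/
theorem shift_le {g : ℕ → ℝ} (hg : ∀ n, 0 ≤ g n) (k N M : ℕ) (h : N + k ≤ M) :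
    ∑ m ∈ range N, g (m + k) ≤ ∑ n ∈ range M, g n := by
  have h1 : ∑ m ∈ range N, g (m + k) = ∑ n ∈ (range N).image (· + k), g n := by
    rw [sum_image]
    intro a _ b _ hab
    exact Nat.add_right_cancel hab
  rw [h1]
  refine sum_le_sum_of_subset_of_nonneg ?_ fun n _ _ => hg n
  intro n hn
  obtain ⟨m, hm, rfl⟩ := mem_image.1 hn
  have := mem_range.1 hm
  exact mem_range.2 (by show m + k < M; omega)

/-- the sum of the squares of the coefficients -/
noncomputable def CN (x : ℂ) (N : ℕ) : ℝ := ∑ j ∈ range (N / 2 + 1), ‖c x N j‖ ^ 2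

theorem upper (hS : S_SAMP) (t : ℝ) (p : ℤ) (q D : ℕ) (hq : 0 < q)
    (hc : IsCoprime p (q : ℤ)) (hDq : D ≤ q) (hd : 100 * (D : ℝ) * |(q : ℝ) * t - p| ≤ 1)
    (N : ℕ) (hN : N < 2 * D) :
    ∑ n ∈ range q, ‖Q (e t) N ((e t)⁻¹ ^ n)‖ ^ 2 ≤ 4 * q * CN (e t) N := by
  have hND : N / 2 + 1 ≤ D := by omega
  have h := (hS t p q D hq hc hDq hd
    (fun j => if j < N / 2 + 1 then (starRingEnd ℂ) (c (e t) N j) else 0)).2
  have hsub : ∀ g : ℕ → ℂ, ∑ j ∈ range D, (if j < N / 2 + 1 then g j else 0) =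
      ∑ j ∈ range (N / 2 + 1), g j := by
    intro g
    rw [← sum_filter]
    congr 1
    ext j
    simp only [mem_filter, mem_range]
    omega
  have hsubR : ∀ g : ℕ → ℝ, ∑ j ∈ range D, (if j < N / 2 + 1 then g j else 0) =
      ∑ j ∈ range (N / 2 + 1), g j := by
    intro g
    rw [← sum_filter]
    congr 1
    ext j
    simp only [mem_filter, mem_range]
    omega
  have e1 : ∑ j ∈ range D, ‖(if j < N / 2 + 1 then (starRingEnd ℂ) (c (e t) N j) else 0 : ℂ)‖ ^ 2
      = CN (e t) N := by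
    rw [CN, ← hsubR]
    refine sum_congr rfl fun j _ => ?_
    split_ifs
    · rw [RCLike.norm_conj]
    · simp
  rw [e1] at h
  refine le_trans (le_of_eq ?_) h
  refine sum_congr rfl fun n _ => ?_
  congr 1
  have e2 : ∑ j ∈ range D, (if j < N / 2 + 1 then (starRingEnd ℂ) (c (e t) N j) else 0) *
      e (t * n * j) = (starRingEnd ℂ) (Q (e t) N ((e t)⁻¹ ^ n)) := by
    rw [Q, map_sum, ← hsub]
    refine sum_congr rfl fun j _ => ?_
    split_ifs
    · rw [map_mul, map_pow, map_pow, ← conj_e, Complex.conj_conj, ← pow_mul, e_pow]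
      congr 2
      push_cast
      ring
    · rw [zero_mul]
  rw [e2, RCLike.norm_conj]

theorem lower (hS : S_SAMP) (t : ℝ) (p : ℤ) (q D : ℕ) (hq : 0 < q)
    (hc : IsCoprime p (q : ℤ)) (hDq : D ≤ q) (hd : 100 * (D : ℝ) * |(q : ℝ) * t - p| ≤ 1)
    (N : ℕ) (hN : N < 2 * D) :
    (q : ℝ) / 4 * CN (e t) N ≤ ∑ m ∈ range q, ‖Q (e t) N ((e t) ^ (m + 1))‖ ^ 2 := by
  have hND : N / 2 + 1 ≤ D := by omega
  have h := (hS t p q D hq hc hDq hd
    (fun j => if j < N / 2 + 1 then c (e t) N j * e t ^ j else 0)).1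
  have hsub : ∀ g : ℕ → ℂ, ∑ j ∈ range D, (if j < N / 2 + 1 then g j else 0) =
      ∑ j ∈ range (N / 2 + 1), g j := by
    intro g
    rw [← sum_filter]
    congr 1
    ext j
    simp only [mem_filter, mem_range]
    omega
  have hsubR : ∀ g : ℕ → ℝ, ∑ j ∈ range D, (if j < N / 2 + 1 then g j else 0) =
      ∑ j ∈ range (N / 2 + 1), g j := by
    intro g
    rw [← sum_filter]
    congr 1
    ext j
    simp only [mem_filter, mem_range]
    omega
  have e1 : ∑ j ∈ range D, ‖(if j < N / 2 + 1 then c (e t) N j * e t ^ j else 0 : ℂ)‖ ^ 2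
      = CN (e t) N := by
    rw [CN, ← hsubR]
    refine sum_congr rfl fun j _ => ?_
    split_ifs
    · rw [norm_mul, norm_pow, norm_e, one_pow, mul_one]
    · simp
  rw [e1] at h
  refine h.trans (le_of_eq ?_)
  refine sum_congr rfl fun n _ => ?_
  congr 1
  have e2 : ∑ j ∈ range D, (if j < N / 2 + 1 then c (e t) N j * e t ^ j else 0) *
      e (t * n * j) = Q (e t) N ((e t) ^ (n + 1)) := by
    rw [Q, ← hsub]
    refine sum_congr rfl fun j _ => ?_
    split_ifs
    · rw [← pow_mul, mul_assoc, (by push_cast; ring : t * n * j = t * ((n * j : ℕ) : ℝ)),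
        ← e_pow, ← pow_add]
      congr 2
      ring
    · rw [zero_mul]
  rw [e2]

/-- The final contradiction. -/
theorem t_DIV (hG : S_GRAM) (hD : S_DET) (hS : S_SAMP) (hT : S_TRACE) (hM : S_MASS) :
    S_DIV := by
  intro t ht H
  obtain ⟨K, hK, hmass⟩ := hM t ht
  set A : ℝ := 16 * Real.exp (2 * K) + 1 with hA
  have hA0 : 0 < A := by positivity
  obtain ⟨n₀, h0⟩ := H (1 / (8 * A)) (by positivity)
  set C := ∑ n ∈ range n₀, V (e t) n with hC
  have hC0 : 0 ≤ C := sum_nonneg fun n _ => V_nonneg _ _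
  obtain ⟨ε, hε, hlarge⟩ := T_large hD hT t ht (16 * A * C)
  obtain ⟨s, D, q, p, hs, hsε, hq, hDq, hcop, hd, hsq, hhalf⟩ := hmass ε hε
  have hTl := hlarge s hs hsε
  have hP := pairs_le hT t ht (by positivity : (0 : ℝ) ≤ 1 / (8 * A)) h0 s hs
  rw [← hC] at hP
  set E : ℝ := 1 / (8 * A) * T t s ^ 2 + 2 * C * T t s with hE
  have hT0 : 0 < T t s := lt_of_le_of_lt (by positivity) hTl
  have hhalf' : T t s ≤ 2 * ∑ n ∈ range D, V (e t) n * w s n := hhalf
  -- the square of the sum
  have hsq2 : (∑ n ∈ range D, V (e t) n * w s n) ^ 2 =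
      ∑ m ∈ range D, ∑ n ∈ range D, (w s (m + n) * ‖Q (e t) (m + n) ((e t)⁻¹ ^ n)‖ ^ 2 +
        w s m * w s n * ‖Del (e t) m n‖ ^ 2) := by
    rw [sq, sum_mul_sum]
    refine sum_congr rfl fun m _ => sum_congr rfl fun n _ => ?_
    rw [w_add, ← mul_add, ← V_split hG t ht m n]
    ring
  -- the first part
  have hfirst : ∑ m ∈ range D, ∑ n ∈ range D, w s (m + n) *
      ‖Q (e t) (m + n) ((e t)⁻¹ ^ n)‖ ^ 2 ≤ ∑ N ∈ range (2 * D), w s N * (4 * q * CN (e t) N) := by
    rw [sum_comm]
    calc ∑ n ∈ range D, ∑ m ∈ range D, w s (m + n) * ‖Q (e t) (m + n) ((e t)⁻¹ ^ n)‖ ^ 2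
        ≤ ∑ n ∈ range D, ∑ N ∈ range (2 * D), w s N * ‖Q (e t) N ((e t)⁻¹ ^ n)‖ ^ 2 := by
          refine sum_le_sum fun n hn => ?_
          refine shift_le (g := fun N => w s N * ‖Q (e t) N ((e t)⁻¹ ^ n)‖ ^ 2)
            (fun N => mul_nonneg (w_pos _ _).le (by positivity)) n D (2 * D) ?_
          have := mem_range.1 hn
          omega
      _ = ∑ N ∈ range (2 * D), ∑ n ∈ range D, w s N * ‖Q (e t) N ((e t)⁻¹ ^ n)‖ ^ 2 := sum_comm
      _ ≤ ∑ N ∈ range (2 * D), w s N * (4 * q * CN (e t) N) := by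
          refine sum_le_sum fun N hN => ?_
          rw [← mul_sum]
          refine mul_le_mul_of_nonneg_left ?_ (w_pos _ _).le
          refine le_trans ?_ (upper hS t p q D hq hcop hDq hd N (mem_range.1 hN))
          refine sum_le_sum_of_subset_of_nonneg ?_ fun _ _ _ => by positivity
          intro n hn
          exact mem_range.2 ((mem_range.1 hn).trans_le hDq)
  -- the coefficients are controlled by the determinants
  have hsecond : ∑ N ∈ range (2 * D), w s N * ((q : ℝ) / 4 * CN (e t) N) ≤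
      Real.exp (2 * K) * E := by
    calc ∑ N ∈ range (2 * D), w s N * ((q : ℝ) / 4 * CN (e t) N)
        ≤ ∑ N ∈ range (2 * D), ∑ m ∈ range q, Real.exp (2 * K) *
          (w s m * w s (N + (m + 1)) * ‖Del (e t) m (N + (m + 1))‖ ^ 2) := by
          refine sum_le_sum fun N hN => ?_
          refine (mul_le_mul_of_nonneg_left (lower hS t p q D hq hcop hDq hd N
            (mem_range.1 hN)) (w_pos s N).le).trans ?_
          rw [mul_sum]
          refine sum_le_sum fun m hm => ?_
          rw [← hD (e t) (norm_e t) m N, (by ring : m + 1 + N = N + (m + 1)), ← mul_assoc]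
          refine mul_le_mul_of_nonneg_right ?_ (by positivity)
          have h1 : w s m * w s (N + (m + 1)) = w s N * w s (2 * m + 1) := by
            rw [← w_add, ← w_add]
            congr 1
            ring
          rw [h1]
          have h2 : 1 ≤ Real.exp (2 * K) * w s (2 * m + 1) := by
            unfold w
            rw [← Real.exp_add]
            apply Real.one_le_exp
            have h3 : ((2 * m + 1 : ℕ) : ℝ) ≤ 2 * q := by
              have := mem_range.1 hm
              have h4 : 2 * m + 1 ≤ 2 * q := by omega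
              exact_mod_cast h4
            have h5 := mul_le_mul_of_nonneg_left h3 hs.le
            nlinarith
          calc w s N = w s N * 1 := (mul_one _).symm
            _ ≤ w s N * (Real.exp (2 * K) * w s (2 * m + 1)) :=
              mul_le_mul_of_nonneg_left h2 (w_pos _ _).le
            _ = _ := by ring
      _ = Real.exp (2 * K) * ∑ m ∈ range q, ∑ N ∈ range (2 * D),
          w s m * w s (N + (m + 1)) * ‖Del (e t) m (N + (m + 1))‖ ^ 2 := by
          rw [sum_comm, mul_sum]
          refine sum_congr rfl fun m _ => ?_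
          rw [mul_sum]
      _ ≤ Real.exp (2 * K) * ∑ m ∈ range (2 * D + q + 1), ∑ n ∈ range (2 * D + q + 1),
          w s m * w s n * ‖Del (e t) m n‖ ^ 2 := by
          refine mul_le_mul_of_nonneg_left ?_ (Real.exp_pos _).le
          have hnn : ∀ m n : ℕ, 0 ≤ w s m * w s n * ‖Del (e t) m n‖ ^ 2 := fun m n =>
            mul_nonneg (mul_nonneg (w_pos _ _).le (w_pos _ _).le) (by positivity)
          calc ∑ m ∈ range q, ∑ N ∈ range (2 * D),
              w s m * w s (N + (m + 1)) * ‖Del (e t) m (N + (m + 1))‖ ^ 2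
              ≤ ∑ m ∈ range q, ∑ n ∈ range (2 * D + q + 1),
                w s m * w s n * ‖Del (e t) m n‖ ^ 2 := by
                refine sum_le_sum fun m hm => ?_
                refine shift_le (g := fun n => w s m * w s n * ‖Del (e t) m n‖ ^ 2)
                  (fun n => hnn m n) (m + 1) (2 * D) (2 * D + q + 1) ?_
                have := mem_range.1 hm
                omega
            _ ≤ _ := by
                refine sum_le_sum_of_subset_of_nonneg ?_ fun m _ _ =>
                  sum_nonneg fun n _ => hnn m n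
                intro m hm
                have := mem_range.1 hm
                exact mem_range.2 (by omega)
      _ ≤ Real.exp (2 * K) * E :=
          mul_le_mul_of_nonneg_left (hP _) (Real.exp_pos _).le
  have hthird : ∑ N ∈ range (2 * D), w s N * (4 * q * CN (e t) N) =
      16 * ∑ N ∈ range (2 * D), w s N * ((q : ℝ) / 4 * CN (e t) N) := by
    rw [mul_sum]
    refine sum_congr rfl fun N _ => ?_
    ring
  have htot : (∑ n ∈ range D, V (e t) n * w s n) ^ 2 ≤ A * E := by
    rw [hsq2]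
    simp only [sum_add_distrib]
    have h1 := hP D
    rw [hthird] at hfirst
    have h2 : A * E = 16 * (Real.exp (2 * K) * E) + E := by
      rw [hA]
      ring
    linarith
  have h4 : T t s ^ 2 ≤ 4 * (A * E) := by
    have h5 : T t s ^ 2 ≤ (2 * ∑ n ∈ range D, V (e t) n * w s n) ^ 2 :=
      pow_le_pow_left₀ hT0.le hhalf' 2
    have h6 : (2 * ∑ n ∈ range D, V (e t) n * w s n) ^ 2 =
        4 * (∑ n ∈ range D, V (e t) n * w s n) ^ 2 := by ring
    linarith
  have h7 : 4 * (A * E) = T t s ^ 2 / 2 + 8 * A * C * T t s := by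
    rw [hE]
    field_simp
    ring
  rw [h7] at h4
  have h8 : T t s * (T t s - 16 * A * C) ≤ 0 := by nlinarith
  have h9 : 0 < T t s * (T t s - 16 * A * C) := mul_pos hT0 (by linarith)
  linarith

end Pool.Agent.Y624.RR
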